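import Pool.Agent.helper17.CH.SpecQ

set_option autoImplicit false

namespace Pool.Agent.CH

open Finset ArithmeticFunction MeasureTheory

private theorem COM_K3 {y : ℝ} {p q r : ℕ} (hp : p.Prime) (hq : q.Prime) (hr : r.Prime)
    (h1 : y ≤ p) (h2 : y ≤ q) (h3 : y ≤ r) : K3 y (p * q * r) := by
  rcases le_total p q with a | a <;> rcases le_total q r with b | b <;>
    rcases le_total p r with c | c
  · exact ⟨p, q, r, hp, hq, hr, h1, a, b, rfl⟩
  · exact ⟨p, q, r, hp, hq, hr, h1, a, b, rfl⟩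
  · exact ⟨p, r, q, hp, hr, hq, h1, c, b, by ring⟩
  · exact ⟨r, p, q, hr, hp, hq, h3, c, a, by ring⟩
  · exact ⟨q, p, r, hq, hp, hr, h2, a, c, by ring⟩
  · exact ⟨q, r, p, hq, hr, hp, h2, b, c, by ring⟩
  · exact ⟨r, q, p, hr, hq, hp, h3, b, a, by ring⟩
  · exact ⟨r, q, p, hr, hq, hp, h3, b, a, by ring⟩

open Classical in
theorem COM : COM_stmt := by
  intro N a z y hPZ ha1 haN hcop hsq hw
  obtain ⟨hz, hzy, hy4, -⟩ := hPZ
  have hN1 : 1 ≤ N := by
    rcases Nat.eq_zero_or_pos N with h | h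
    · subst h
      simp at haN
    · exact h
  have hNR : (1 : ℝ) ≤ N := by exact_mod_cast hN1
  have hz1 : 1 ≤ z := le_trans (Real.one_le_rpow hNR (by norm_num)) hz
  have hy1 : 1 ≤ y := hz1.trans hzy
  have ha0 : a ≠ 0 := by omega
  have hBs0 : (0 : ℝ) ≤ (if Bs z y a then (1 / 2 : ℝ) else 0) := by
    split_ifs <;> norm_num
  have hno : ¬ ∃ q : ℕ, q.Prime ∧ q ∣ a ∧ 7 ≤ q ∧ (q : ℝ) < z := by
    intro h
    rw [if_pos h] at hw
    linarith
  rw [if_neg hno] at hw
  have hall : ∀ q ∈ a.primeFactors, z ≤ (q : ℝ) := by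
    intro q hq
    have hqp := Nat.prime_of_mem_primeFactors hq
    have hqa := Nat.dvd_of_mem_primeFactors hq
    have h7 : 7 ≤ q := by
      have hcq : Nat.Coprime q 30 := Nat.Coprime.coprime_dvd_left hqa hcop
      by_contra hlt
      push Not at hlt
      have h2 := hqp.two_le
      interval_cases q
      · exact absurd hcq (by decide)
      · exact absurd hcq (by decide)
      · exact absurd hqp (by decide)
      · exact absurd hcq (by decide)
      · exact absurd hqp (by decide)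
    by_contra hlt
    push Not at hlt
    exact hno ⟨q, hqp, hqa, h7, hlt⟩
  refine ⟨?_, hall⟩
  have hsqf : Squarefree a := by
    rw [Nat.squarefree_iff_prime_squarefree]
    intro q hq hqq
    have hqa : q ∈ a.primeFactors :=
      Nat.mem_primeFactors.mpr ⟨hq, (Dvd.intro _ rfl).trans hqq, ha0⟩
    exact hsq q hq (hall q hqa) (by rw [pow_two]; exact hqq)
  have hcard : cardFactors a = #a.primeFactors := by
    rw [← (cardDistinctFactors_eq_cardFactors_iff_squarefree ha0).mpr hsqf]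
    rfl
  rw [hcard]
  set S1 := a.primeFactors.filter (fun q : ℕ => z ≤ (q : ℝ) ∧ (q : ℝ) < y) with hS1
  set S2 := a.primeFactors.filter (fun q : ℕ => ¬ (z ≤ (q : ℝ) ∧ (q : ℝ) < y)) with hS2
  have hsum : #S1 + #S2 = #a.primeFactors := Finset.card_filter_add_card_filter_not _
  have hS2y : ∀ q ∈ S2, y ≤ (q : ℝ) := by
    intro q hq
    rw [hS2, mem_filter] at hq
    by_contra hlt
    push Not at hlt
    exact hq.2 ⟨hall q hq.1, hlt⟩
  have hprod : ∏ p ∈ a.primeFactors, p = a := Nat.prod_primeFactors_of_squarefree hsqf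
  have hsplit : (∏ p ∈ S1, p) * ∏ p ∈ S2, p = a := by
    rw [hS1, hS2, Finset.prod_filter_mul_prod_filter_not, hprod]
  have hl3 : #S2 ≤ 3 := by
    by_contra hgt
    push Not at hgt
    have h1 : y ^ #S2 ≤ ∏ p ∈ S2, (p : ℝ) := by
      rw [← Finset.prod_const]
      exact Finset.prod_le_prod (fun _ _ => by linarith) hS2y
    have h2 : y ^ 4 ≤ y ^ #S2 := pow_le_pow_right₀ hy1 hgt
    have h3 : ∏ p ∈ S2, p ≤ a := by
      apply Nat.le_of_dvd (by omega)
      exact ⟨∏ p ∈ S1, p, by rw [← hsplit, mul_comm]⟩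
    have h4 : ∏ p ∈ S2, (p : ℝ) ≤ a := by
      rw [← Nat.cast_prod]
      exact Nat.cast_le.mpr h3
    have h5 : (a : ℝ) < 8 * (N : ℝ) ^ 3 := by exact_mod_cast haN
    linarith
  have hk : #S1 ≤ 1 := by
    by_contra hgt
    push Not at hgt
    have : (2 : ℝ) ≤ #S1 := by exact_mod_cast hgt
    linarith
  rcases Nat.eq_zero_or_pos #S1 with h0 | h0
  · omega
  · have hk1 : #S1 = 1 := by omega
    have hnB : ¬ Bs z y a := by
      intro hB
      rw [if_pos hB, hk1] at hw
      norm_num at hw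
    by_contra hgt
    push Not at hgt
    have hl : #S2 = 3 := by omega
    apply hnB
    obtain ⟨p, hp⟩ := Finset.card_eq_one.mp hk1
    obtain ⟨u, v, w, huv, huw, hvw, hS⟩ := Finset.card_eq_three.mp hl
    have hpS : p ∈ S1 := by rw [hp]; exact mem_singleton_self p
    have huS : u ∈ S2 := by rw [hS]; simp
    have hvS : v ∈ S2 := by rw [hS]; simp
    have hwS : w ∈ S2 := by rw [hS]; simp
    have hpr : ∀ x ∈ S2, x.Prime := fun x hx =>
      Nat.prime_of_mem_primeFactors (mem_filter.mp hx).1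
    refine ⟨p, u * v * w, ⟨?_, ?_, ?_⟩, COM_K3 (hpr u huS) (hpr v hvS) (hpr w hwS) (hS2y u huS)
      (hS2y v hvS) (hS2y w hwS), ?_⟩
    · exact Nat.prime_of_mem_primeFactors (mem_filter.mp hpS).1
    · exact (mem_filter.mp hpS).2.1
    · exact (mem_filter.mp hpS).2.2
    · rw [hp, hS, Finset.prod_singleton, Finset.prod_insert (by simp [huv, huw]),
        Finset.prod_insert (by simp [hvw]), Finset.prod_singleton] at hsplit
      rw [← hsplit]
      ring

end Pool.Agent.CH
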